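import Mathlib
import Pool.Agent.Lib.RdvF.Lower
import Pool.Agent.Lib.RdvF.AwF
import Pool.Agent.Lib.RdvF.AwUp

/-! # The Anderson-Weber strategy is asymptotically optimal among forgetful strategies -/

namespace Pool.Agent.Results.MP_92dd55_pr.ForgetfulOptimum

open MeasureTheory Finset Pool.Agent.Lib.MP92dd55 Pool.Agent.Lib.RdvF
open scoped ENNReal

/-- Among all strategies whose law is invariant under independent relabellings of the phones in
the blocks of `n` periods the Anderson-Weber strategy is asymptotically optimal, and its expected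
meeting time is `R n + o(n)`, `R = (1/e + sqrt (1/e^2 + 3 - 4/e))/2`. -/
theorem result : ∀ ε : ℝ, 0 < ε → ∃ N : ℕ, ∀ n ≥ N, ∀ hn : 0 < n,
    (∀ μ : Measure (ℕ → Fin n), IsProbabilityMeasure μ → Forgetful μ →
      ENNReal.ofReal ((Rc - ε) * n) ≤ expectedTime μ) ∧
    IsProbabilityMeasure (awLaw hn (1 - 1 / Wc)) ∧ Forgetful (awLaw hn (1 - 1 / Wc)) ∧
    expectedTime (awLaw hn (1 - 1 / Wc)) ≤ ENNReal.ofReal ((Rc + ε) * n) := by
  intro ε hε
  obtain ⟨N1, hN1⟩ := Lower_p ε hε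
  obtain ⟨N2, hN2⟩ := AwUp_p ε hε
  obtain ⟨hE0, hE1, hR0, hR1, hRsq, hbW⟩ := Num_p
  have hW1 : 1 < Wc := by unfold Wc; linarith
  have h1 : 0 ≤ 1 - 1 / Wc := by
    rw [sub_nonneg, div_le_one (by linarith)]; exact hW1.le
  have h2 : 1 - 1 / Wc ≤ 1 := by
    have : 0 ≤ 1 / Wc := by positivity
    linarith
  refine ⟨N1 + N2, fun n hn hn0 => ⟨hN1 n (by omega), ?_⟩⟩
  have h3 := AwF_p hn0 (1 - 1 / Wc) h1 h2
  exact ⟨h3.1, h3.2, hN2 n (by omega) hn0⟩

end Pool.Agent.Results.MP_92dd55_pr.ForgetfulOptimum
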