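import Mathlib
import Pool.Agent.Lib.MP92dd55.LimMain

/-! # The limit of `R^s(K_n)/n` -/

namespace Pool.Agent.Results.MP_92dd55_pr.Limit

open Filter Topology
open Pool.Agent.Lib.MP92dd55

theorem result : ∃ L : ℝ,
    Tendsto (fun n : ℕ => (rendezvousValue n).toReal / n) atTop (𝓝 L) ∧
    IsGLB {v : ℝ | ∃ d : Design, d.surv d.N < 1 ∧ v = d.value} L :=
  limit_exists

end Pool.Agent.Results.MP_92dd55_pr.Limit
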