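import Mathlib
import Pool.Agent.Lib.MP92dd55.Reduce
import Pool.Agent.Lib.MP92dd55.CertTable
import Pool.Agent.Lib.MP92dd55.Blocks

/-! # `R^s(K_n) ≥ 0.7659 n` for all large `n` -/

namespace Pool.Agent.Results.MP_92dd55_pr.LowerBound

open MeasureTheory Finset Pool.Agent.Lib.MP92dd55
open scoped ENNReal

theorem result : ∃ N : ℕ, ∀ n ≥ N,
    ENNReal.ofReal (0.7659 * (n : ℝ)) ≤ rendezvousValue n := by
  obtain ⟨N, hN⟩ := game_bound (1 / 1000000) (by norm_num)
  obtain ⟨N', hN'⟩ := game_bound2 (1 / 1000000) (by norm_num)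
  refine ⟨N + N' + 100000, ?_⟩
  intro n hn
  have hnpos : 0 < n := by omega
  have hn0 : (0 : ℝ) < n := by exact_mod_cast hnpos
  have hn1 : (100000 : ℝ) ≤ n := by
    have : 100000 ≤ n := by omega
    exact_mod_cast this
  unfold rendezvousValue
  refine le_iInf fun μ => ?_
  set M : ℕ := (20 + 35) * n / 20 with hM
  refine le_trans ?_ (expectedTime_ge (μ : Measure (ℕ → Fin n)) M)
  have hprob : ∀ t, ∑ a, wt (μ : Measure (ℕ → Fin n)) t a = 1 := fun t => wt_sum _ t
  set P : ℕ → ℝ := fun t => ∑ a, ∑ b, wt (μ : Measure (ℕ → Fin n)) t a *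
    wt (μ : Measure (ℕ → Fin n)) t b * pAvoid (pairs a b) with hP
  have hterm : ∀ t ∈ range n, Wpol ((t : ℝ) / n) ≤ P t + 1 / 1000000 := by
    intro t ht
    rw [mem_range] at ht
    have htM : (t : ℝ) ≤ n := by exact_mod_cast ht.le
    have htn : (t : ℝ) / n ≤ 73 / 50 := by
      rw [div_le_iff₀ hn0]; linarith
    rcases Nat.eq_zero_or_pos t with rfl | htpos
    · have h1 : ∀ a b : Fin 0 → Fin n, pAvoid (pairs a b) = 1 := by
        intro a b
        have : pairs a b = ∅ := by simp [pairs]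
        rw [this, pAvoid_empty]
      simp only [hP]
      simp_rw [h1, mul_one]
      have h2 := hprob 0
      rw [← Finset.sum_mul_sum, h2]
      simp [Wpol]
    · have htp : (0 : ℝ) < t := by exact_mod_cast htpos
      have h4 := hN n (by omega) t htpos (by omega) (wt (μ : Measure (ℕ → Fin n)) t)
        (wt_nonneg _ t) (hprob t)
      have h5 := Wpol_le_V ((t : ℝ) / n) (by positivity) htn
      change _ ≤ P t at h4
      linarith
  have hsum := sum_Wpol n hnpos n (by linarith)
  have hI : (0.6025816 : ℝ) ≤ Ipol ((n : ℝ) / n) := by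
    rw [div_self hn0.ne']
    unfold Ipol
    norm_num
  have h0 : (0.6025816 : ℝ) * n ≤ ∑ t ∈ range n, (P t + 1 / 1000000) := by
    calc (0.6025816 : ℝ) * n = n * 0.6025816 := by ring
      _ ≤ n * Ipol ((n : ℝ) / n) := by gcongr
      _ ≤ _ := hsum
      _ ≤ _ := Finset.sum_le_sum hterm
  set v : ℕ → ℝ := fun m => (vlist.getD (m - 21) 0 : ℕ) / 10 ^ 8 with hv
  have hblock := sum_blocks n hnpos (fun t => P t + 1 / 1000000) v 0.6025816 35
    (fun m => by simp only [hv]; positivity) h0 (by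
      intro m h1 h2 t ht1 ht2
      obtain ⟨f1, f2, f3, g, hmin⟩ := table m h1 (by omega)
      have hm3 : (m : ℝ) / 20 ≤ 3 := by
        have : (m : ℝ) ≤ 56 := by
          have : m ≤ 56 := by omega
          exact_mod_cast this
        linarith
      have h4 := hN' n (by omega) f1 f2 f3 g _ _ hmin hm3 t ht1 ht2
        (wt (μ : Measure (ℕ → Fin n)) t) (wt_nonneg _ t) (hprob t)
      change _ ≤ P t at h4
      simp only [hv]
      linarith) 35 le_rfl
  have hS : ∑ i ∈ range 35, v (21 + i) = 326795548 / 10 ^ 8 := by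
    have h1 : ∑ i ∈ range 35, vlist.getD (21 + i - 21) 0 = 326795548 := by decide
    simp only [hv]
    rw [← Finset.sum_div, ← Nat.cast_sum, h1]
    norm_num
  rw [hS, ← hM, Finset.sum_add_distrib] at hblock
  have hM1 : (M : ℝ) * 20 ≤ 55 * n := by
    have : M * 20 ≤ 55 * n := by rw [hM]; omega
    exact_mod_cast this
  have hc : ∑ t ∈ range M, (1 / 1000000 : ℝ) = M / 1000000 := by
    rw [Finset.sum_const, card_range, nsmul_eq_mul]; ring
  rw [hc] at hblock
  have htot : 0.7659 * (n : ℝ) ≤ ∑ t ∈ range M, P t := by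
    norm_num at hblock ⊢
    linarith
  calc ENNReal.ofReal (0.7659 * (n : ℝ)) ≤ ENNReal.ofReal (∑ t ∈ range M, P t) :=
        ENNReal.ofReal_le_ofReal htot
    _ = _ := by
      rw [ENNReal.ofReal_sum_of_nonneg]
      intro t _
      exact Finset.sum_nonneg fun a _ => Finset.sum_nonneg fun b _ =>
        mul_nonneg (mul_nonneg (wt_nonneg _ _ _) (wt_nonneg _ _ _)) (pAvoid_nonneg _)

end Pool.Agent.Results.MP_92dd55_pr.LowerBound
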