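import Mathlib
import Pool.Agent.Lib.MP92dd55.Mixture

/-! # `R^s(K_n) ≤ 0.8287 n` for all large `n` -/

namespace Pool.Agent.Results.MP_92dd55_pr.UpperBound

open Finset Real Pool.Agent.Lib.MP92dd55
open scoped ENNReal

/-- The total cost polynomial evaluated at `exp (-1/2)`. -/
lemma total_eq : ∑ d ∈ range 9, ((tot d : ℤ) : ℝ) * exp (-(1 / ((2 : ℕ) : ℝ))) ^ d =
    160000 * ∑ i, ∑ j, (theWeight i : ℝ) * (theWeight j : ℝ) *
      ((∑ k ∈ range 8, slotCost 2 (theWord i) (theWord j) k) +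
        0.8287 * endProb 2 (theWord i) (theWord j) 8) := by
  set x := exp (-(1 / ((2 : ℕ) : ℝ))) with hx
  have h1 : ∀ d ∈ range 9, ((tot d : ℤ) : ℝ) * x ^ d =
      ∑ i, ∑ j, (theWeight i : ℝ) * (theWeight j : ℝ) *
        (10000 * (∑ k ∈ range 8, ((slotPoly 2 (theWord i) (theWord j) k d : ℤ) : ℝ) * x ^ d) +
          8287 * (((endPoly 2 (theWord i) (theWord j) 8 d : ℤ) : ℝ) * x ^ d)) := by
    intro d _
    unfold tot
    push_cast
    rw [Finset.sum_mul]
    refine Finset.sum_congr rfl fun i _ => ?_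
    rw [Finset.sum_mul]
    refine Finset.sum_congr rfl fun j _ => ?_
    rw [← Finset.sum_mul]
    ring
  rw [Finset.sum_congr rfl h1, Finset.sum_comm, Finset.mul_sum]
  refine Finset.sum_congr rfl fun i _ => ?_
  rw [Finset.sum_comm, Finset.mul_sum]
  refine Finset.sum_congr rfl fun j _ => ?_
  rw [← Finset.mul_sum, Finset.sum_add_distrib, ← Finset.mul_sum, ← Finset.mul_sum,
    Finset.sum_comm]
  have h2 : ∑ k ∈ range 8, ∑ d ∈ range 9,
      ((slotPoly 2 (theWord i) (theWord j) k d : ℤ) : ℝ) * x ^ d =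
      16 * ∑ k ∈ range 8, slotCost 2 (theWord i) (theWord j) k := by
    rw [Finset.mul_sum]
    refine Finset.sum_congr rfl fun k hk => ?_
    have h3 := slotPoly_sum (m := 2) (by norm_num) (theWord i) (theWord j) k 8 (mem_range.1 hk)
    rw [h3]
    norm_num
  have h4 : ∑ d ∈ range 9, ((endPoly 2 (theWord i) (theWord j) 8 d : ℤ) : ℝ) * x ^ d =
      16 * endProb 2 (theWord i) (theWord j) 8 := by
    have h3 := endPoly_sum (m := 2) (by norm_num) (theWord i) (theWord j) 8
    rw [h3]
    norm_num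
  rw [h2, h4]
  ring

theorem result : ∃ N : ℕ, ∀ n ≥ N,
    rendezvousValue n ≤ ENNReal.ofReal (0.8287 * (n : ℝ)) := by
  refine value_le_words (N := 20) (m := 2) (K := 8) (by norm_num) (by norm_num)
    (fun i => (theWeight i : ℝ) / 10000) (fun i => by positivity) ?_ theWord theWord_le 0.8287
    (by norm_num) ?_
  · rw [← Finset.sum_div]
    have h : ((∑ i, theWeight i : ℕ) : ℝ) = 10000 := by rw [theWeight_sum]; norm_num
    push_cast at h
    rw [h]; norm_num
  · have h1 : ∑ i, ∑ j, (theWeight i : ℝ) / 10000 * ((theWeight j : ℝ) / 10000) *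
        ((∑ k ∈ range 8, slotCost 2 (theWord i) (theWord j) k) +
        0.8287 * endProb 2 (theWord i) (theWord j) 8) =
        (160000 * ∑ i, ∑ j, (theWeight i : ℝ) * (theWeight j : ℝ) *
      ((∑ k ∈ range 8, slotCost 2 (theWord i) (theWord j) k) +
        0.8287 * endProb 2 (theWord i) (theWord j) 8)) / (160000 * 10000 ^ 2) := by
      rw [Finset.mul_sum, Finset.sum_div]
      refine Finset.sum_congr rfl fun i _ => ?_
      rw [Finset.mul_sum, Finset.sum_div]
      refine Finset.sum_congr rfl fun j _ => ?_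
      ring
    rw [h1, ← total_eq]
    set x := exp (-(1 / ((2 : ℕ) : ℝ))) with hx
    have hx0 : (0.6065306 : ℝ) ≤ x := exp_half_ge
    have hp : ∀ d : ℕ, (0.6065306 : ℝ) ^ d ≤ x ^ d := fun d =>
      pow_le_pow_left₀ (by norm_num) hx0 d
    have p1 := hp 1
    have p2 := hp 2
    have p3 := hp 3
    have p4 := hp 4
    have p5 := hp 5
    have p6 := hp 6
    have p8 := hp 8
    rw [div_lt_iff₀ (by norm_num)]
    simp only [Finset.sum_range_succ, Finset.sum_range_zero, tot0, tot1, tot2, tot3, tot4, tot5,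
      tot6, tot7, tot8]
    push_cast
    norm_num at p1 p2 p3 p4 p5 p6 p8 ⊢
    linarith

end Pool.Agent.Results.MP_92dd55_pr.UpperBound
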